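import Pool.Agent.helper69.SN.SpecB

/-!
Row bGLU of the project MP_d2d7b9_gt (sn): global gluing in the class.
-/

open scoped Pointwise ContDiff
open MeasureTheory Set Filter Topology

namespace Pool.Agent.helper69.SN

open Pool.Agent.helper83.SC

theorem bGLU_of (hRMX : bRMX_stmt) (hCLO : aCLO_stmt) : bGLU_stmt := by
  intro m n B hB O u v hu hv hgap R ε hε
  obtain ⟨c, hc0, hc⟩ := hgap R
  set s : ℝ := min ε c / 4 with hs
  have hmin0 : 0 < min ε c := lt_min hε hc0
  have hs0 : 0 < s := by rw [hs]; linarith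
  have hse : 4 * s ≤ ε := by
    have h1 : min ε c ≤ ε := min_le_left _ _
    rw [hs]; linarith
  have hsc : 4 * s ≤ c := by
    have h1 : min ε c ≤ c := min_le_right _ _
    rw [hs]; linarith
  obtain ⟨u', hu'1, hu'2, hu'3⟩ := hu R s hs0
  obtain ⟨v', hv'1, hv'2, hv'3⟩ := hv R s hs0
  obtain ⟨w, hw1, hw2, hw3, hw4, hw5, hw6⟩ := hRMX s hs0 u' v' hu'1.1 hv'1.1
  refine ⟨w, ⟨hw1, hw5 hu'1.2 hv'1.2⟩, fun x hxR => ?_, fun x hxR => ?_⟩
  · have h1 := abs_le.mp (hu'2 x hxR)
    have h2 := abs_le.mp (hv'2 x hxR)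
    obtain ⟨h3, h4⟩ := hw2 x
    have h5 : max (u' x) (v' x) ≤ max (u x) (v x) + s :=
      max_le (by linarith [le_max_left (u x) (v x), h1.2])
        (by linarith [le_max_right (u x) (v x), h2.2])
    have h6 : max (u x) (v x) ≤ max (u' x) (v' x) + s :=
      max_le (by linarith [le_max_left (u' x) (v' x), h1.1])
        (by linarith [le_max_right (u' x) (v' x), h2.1])
    rw [abs_le]
    constructor <;> linarith
  · obtain ⟨hconv, hadd, -⟩ := hCLO (B x) (hB x)
    obtain ⟨θ, P, hθ0, hθ1, hP, hH, hL, -⟩ := hw6 x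
    by_cases hx : x ∈ O
    · have h1 : θ • (hess u' x - ∑ i, B x i) + (1 - θ) • (hess v' x - ∑ i, B x i) ∈ GG (B x) :=
        hconv (hu'3 x hxR) (hv'3 x hxR hx) hθ0 (by linarith) (by ring)
      have h2 := hadd _ _ h1 hP
      have h3 : hess w x - ∑ i, B x i
          = θ • (hess u' x - ∑ i, B x i) + (1 - θ) • (hess v' x - ∑ i, B x i) + P := by
        rw [hH]
        module
      rw [h3]
      exact h2
    · have h1 := abs_le.mp (hu'2 x hxR)
      have h2 := abs_le.mp (hv'2 x hxR)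
      have h3 := hc x hxR hx
      obtain ⟨h4, h5⟩ := hL (by linarith [h1.1, h2.2])
      have h6 : hess w x = hess u' x := by
        rw [hH, h4, h5]
        module
      rw [h6]
      exact hu'3 x hxR

end Pool.Agent.helper69.SN
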